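import Pool.Agent.Helper42.DB.Goals2

set_option autoImplicit false

/-!
# MP_48f005_an, packet LIFT
-/

namespace Pool.Agent.Helper42.DB.PkLIFT

open Set Filter Topology

lemma ee_add_int (θ : ℝ) (m : ℤ) : ee (θ + m * (2 * Real.pi)) = ee θ := by
  rw [ee_eq_ee_iff]
  have h : θ + m * (2 * Real.pi) - θ = m * (2 * Real.pi) := by ring
  rw [h, Real.cos_int_mul_two_pi]

/-- choice of the sheet -/
lemma sheet (a b θ : ℝ) (hab : a ≤ b) (h : ∀ u ∈ Icc a b, ee u ≠ -ee θ) :
    ∃ m : ℤ, ∀ u ∈ Icc a b, |u - (θ + m * (2 * Real.pi))| < Real.pi := by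
  have hpi := Real.pi_pos
  set m : ℤ := round ((a - θ) / (2 * Real.pi)) with hm
  have h0 : |a - (θ + m * (2 * Real.pi))| ≤ Real.pi := by
    have h1 := abs_sub_round ((a - θ) / (2 * Real.pi))
    have h2 : a - (θ + m * (2 * Real.pi)) = ((a - θ) / (2 * Real.pi) - m) * (2 * Real.pi) := by
      field_simp
      ring
    rw [h2, abs_mul, abs_of_pos (by positivity : (0:ℝ) < 2 * Real.pi)]
    calc |(a - θ) / (2 * Real.pi) - m| * (2 * Real.pi) ≤ 1 / 2 * (2 * Real.pi) := by
          apply mul_le_mul_of_nonneg_right h1; positivity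
      _ = Real.pi := by ring
  have hne1 : ∀ u ∈ Icc a b, u - (θ + m * (2 * Real.pi)) ≠ Real.pi := by
    intro u hu he
    apply h u hu
    have h3 : u = (θ + Real.pi) + m * (2 * Real.pi) := by linarith
    rw [h3, ee_add_int, ee_add_pi]
  have hne2 : ∀ u ∈ Icc a b, u - (θ + m * (2 * Real.pi)) ≠ -Real.pi := by
    intro u hu he
    apply h u hu
    have h3 : u = (θ + Real.pi) + ((m - 1 : ℤ) : ℝ) * (2 * Real.pi) := by
      push_cast; linarith
    rw [h3, ee_add_int, ee_add_pi]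
  have ha : a ∈ Icc a b := ⟨le_rfl, hab⟩
  have ha' := abs_le.1 h0
  have ha1 : -Real.pi < a - (θ + m * (2 * Real.pi)) :=
    lt_of_le_of_ne ha'.1 (Ne.symm (hne2 a ha))
  have ha2 : a - (θ + m * (2 * Real.pi)) < Real.pi := lt_of_le_of_ne ha'.2 (hne1 a ha)
  refine ⟨m, fun u hu => abs_lt.2 ⟨by linarith [hu.1], ?_⟩⟩
  by_contra hge
  push Not at hge
  have hu' : θ + m * (2 * Real.pi) + Real.pi ∈ Icc a b := ⟨by linarith, by linarith [hu.2]⟩
  exact hne1 _ hu' (by ring)

lemma small_of_cos_pos (A : ℝ) (hA : |A| < Real.pi + Real.pi / 2) (hc : 0 < Real.cos A) :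
    |A| < Real.pi / 2 := by
  by_contra hge
  push Not at hge
  have h := Real.cos_nonpos_of_pi_div_two_le_of_le hge hA.le
  rw [Real.cos_abs] at h
  linarith

/-- LIFT -/
theorem thm (S : Sys) : G_LIFT S := by
  intro i j hij
  obtain ⟨η', c, h1, h2, h3, h4⟩ := S.sep i j hij
  obtain ⟨m, hm⟩ := sheet (S.a i) (S.b i) η' (S.hab i).le h3
  set η : ℝ := η' + m * (2 * Real.pi) with hη
  have heη : ee η = ee η' := ee_add_int η' m
  obtain ⟨m', hm'⟩ := sheet (S.a j) (S.b j) (η + Real.pi) (S.hab j).le (by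
    intro v hv
    rw [ee_add_pi, neg_neg, heη]
    exact h4 v hv)
  set kk : ℝ := Real.pi + m' * (2 * Real.pi) with hkk
  have hcos : Real.cos kk = -1 := by
    rw [hkk, Real.cos_add_int_mul_two_pi, Real.cos_pi]
  have hsin : Real.sin kk = 0 := by
    rw [hkk, Real.sin_add_int_mul_two_pi, Real.sin_pi]
  have hB : ∀ v ∈ Icc (S.a j) (S.b j), |v - η - kk| < Real.pi := by
    intro v hv
    have h := hm' v hv
    have he : v - (η + Real.pi + m' * (2 * Real.pi)) = v - η - kk := by rw [hkk]; ring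
    rwa [he] at h
  refine ⟨η, c, kk, hcos, ?_, ?_, hm, hB, ?_⟩
  · intro u hu; rw [heη]; exact h1 u hu
  · intro v hv; rw [heη]; exact h2 v hv
  intro x y hF hxi hyj
  obtain ⟨hx, hy, he, t, ht, hp, -⟩ := hF
  have hxu : x.u ∈ Ioo (S.a i) (S.b i) := by rw [← hxi]; exact hx.1
  have hyu : y.u ∈ Ioo (S.a j) (S.b j) := by rw [← hyj]; exact hy.1
  have hxp : dt (ee η) x.pos < c := by
    have h := h1 x.u hxu
    rw [heη]
    have h' : x.pos = S.g i x.u := by simp only [St.pos, hxi]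
    rw [h']; exact h
  have hyp : c < dt (ee η) y.pos := by
    have h := h2 y.u hyu
    rw [heη]
    have h' : y.pos = S.g j y.u := by simp only [St.pos, hyj]
    rw [h']; exact h
  rw [hp, dt_add_right, dt_smul_right, dt_ee_ee] at hyp
  have hpos : 0 < t * Real.cos (x.th - η) := by linarith
  have hc : 0 < Real.cos (x.th - η) := (mul_pos_iff_of_pos_left ht).1 hpos
  have hA : |x.th - η| < Real.pi / 2 := by
    apply small_of_cos_pos _ _ hc
    have e1 : x.th - η = (x.u - η) + x.φ := by simp only [St.th]; ring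
    rw [e1]
    have e2 := abs_add_le (x.u - η) x.φ
    have e3 := hm x.u (Ioo_subset_Icc_self hxu)
    have e4 := hx.2
    linarith
  have hcB : Real.cos (y.bk - η) = -Real.cos (x.th - η) := by
    rw [← dt_ee_ee, ← dt_ee_ee, he, dt_neg_right, neg_neg]
  have hcB' : Real.cos (y.bk - η - kk) = Real.cos (x.th - η) := by
    rw [Real.cos_sub (y.bk - η) kk, hcos, hsin, hcB]; ring
  have hBB : |y.bk - η - kk| < Real.pi / 2 := by
    apply small_of_cos_pos _ _ (by rw [hcB']; exact hc)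
    have e1 : y.bk - η - kk = (y.u - η - kk) + -y.φ := by simp only [St.bk]; ring
    rw [e1]
    have e2 := abs_add_le (y.u - η - kk) (-y.φ)
    rw [abs_neg] at e2
    have e3 := hB y.u (Ioo_subset_Icc_self hyu)
    have e4 := hy.2
    linarith
  refine ⟨hA, ?_⟩
  have hone : Real.cos (y.bk - η - kk - (x.th - η)) = 1 := by
    have e1 : y.bk - η - kk - (x.th - η) = (y.bk - x.th) - kk := by ring
    have e2 : Real.cos (y.bk - x.th) = -1 := by
      rw [← dt_ee_ee, he, dt_neg_left, dt_self, norm_ee]; norm_num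
    rw [e1, Real.cos_sub, hcos, hsin, e2]; ring
  have hlt := abs_lt.1 hA
  have hlt' := abs_lt.1 hBB
  have hz := (Real.cos_eq_one_iff_of_lt_of_lt (by linarith [Real.pi_pos, hlt.2, hlt'.1])
    (by linarith [Real.pi_pos, hlt.1, hlt'.2])).1 hone
  linarith

end Pool.Agent.Helper42.DB.PkLIFT
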