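import Pool.Agent.Helper42.DB.Goals2

set_option autoImplicit false

/-!
# MP_48f005_an, packet MINI
-/

namespace Pool.Agent.Helper42.DB.PkMINI

open Set Filter Topology

lemma ee_add_ee (u φ : ℝ) : ee (u + φ) + ee (u - φ) = (2 * Real.cos φ) • ee u := by
  apply Complex.ext
  · simp only [Complex.add_re, ee_re, Complex.smul_re, smul_eq_mul, Real.cos_add, Real.cos_sub]
    ring
  · simp only [Complex.add_im, ee_im, Complex.smul_im, smul_eq_mul, Real.sin_add, Real.sin_sub]
    ring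

lemma sum_Ioo (m : ℕ) (f : ℕ → ℝ) :
    ∑ k ∈ Finset.Ioo 0 (m + 1), f k = ∑ k ∈ Finset.range m, f (k + 1) := by
  have h : Finset.Ioo 0 (m + 1) = Finset.Ico 1 (m + 1) := by
    ext k; simp [Nat.succ_le_iff]
  rw [h, Finset.sum_Ico_eq_sum_range]
  simp only [Nat.add_sub_cancel]
  exact Finset.sum_congr rfl fun k _ => by rw [add_comm]

/-- MINI -/
theorem thm (S : Sys) : G_ARC S → G_MINI S := by
  intro hA n w z hn hC p hp
  obtain ⟨m, rfl⟩ : ∃ m, n = m + 1 := ⟨n - 1, by omega⟩
  set A : ℕ → ℝ := fun k => dt (ee (z k).th) (p k - (z k).pos) with hAdef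
  set B : ℕ → ℝ := fun k => dt (ee (z k).bk) (p k - (z k).pos) with hBdef
  have hstep : ∀ k < m + 1, len (z k) (z (k + 1)) - B (k + 1) - A k ≤ ‖p (k + 1) - p k‖ := by
    intro k hk
    have hF := hC.1.2 k hk
    have hv : ee (z k).th = -ee (z (k + 1)).bk := hF.2.2.1
    obtain ⟨-, hlen⟩ := hF.length
    have h1 := dt_le (ee (z k).th) (p (k + 1) - p k)
    rw [norm_ee, one_mul] at h1
    have h2 : p (k + 1) - p k = (p (k + 1) - (z (k + 1)).pos) +
        ((z (k + 1)).pos - (z k).pos) - (p k - (z k).pos) := by ring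
    have h3 : (z (k + 1)).pos - (z k).pos = (len (z k) (z (k + 1))) • ee (z k).th := by
      have h4 : (z (k + 1)).pos = (z k).pos + (len (z k) (z (k + 1))) • ee (z k).th := hlen
      rw [sub_eq_iff_eq_add', ← h4]
    have h5 : dt (ee (z k).th) (p (k + 1) - p k) = len (z k) (z (k + 1)) - B (k + 1) - A k := by
      rw [h2, dt_sub_right, dt_add_right, h3, dt_smul_right, dt_self, norm_ee]
      have h6 : dt (ee (z k).th) (p (k + 1) - (z (k + 1)).pos) = -B (k + 1) := by
        rw [hv, dt_neg_left]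
      rw [h6]
      simp only [hAdef]
      ring
    rw [← h5]
    exact h1
  have hmid : ∀ k < m, 2 * S.κ * (Real.cos (z (k + 1)).φ *
      ‖p (k + 1) - (z (k + 1)).pos‖ ^ 2) ≤ -(A (k + 1) + B (k + 1)) := by
    intro k hk
    have hok := hC.1.1 (k + 1) (by omega)
    have hi := hC.2 (k + 1) (by omega)
    have hpk := hp (k + 1) (by omega) (by omega)
    rw [← hi] at hpk
    obtain ⟨-, -, -, hconv⟩ := hA (z (k + 1)).i
    have h1 := hconv (z (k + 1)).u (Ioo_subset_Icc_self hok.1) (p (k + 1)) hpk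
    have h2 : S.g (z (k + 1)).i (z (k + 1)).u = (z (k + 1)).pos := rfl
    rw [h2, norm_sub_rev] at h1
    have h3 : A (k + 1) + B (k + 1) =
        2 * Real.cos (z (k + 1)).φ * dt (ee (z (k + 1)).u) (p (k + 1) - (z (k + 1)).pos) := by
      simp only [hAdef, hBdef]
      rw [← dt_add_left, St.th, St.bk, ee_add_ee, dt_smul_left]
    have h4 : dt (ee (z (k + 1)).u) ((z (k + 1)).pos - p (k + 1)) =
        -dt (ee (z (k + 1)).u) (p (k + 1) - (z (k + 1)).pos) := by
      rw [← dt_neg_right, neg_sub]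
    rw [h4] at h1
    rw [h3]
    have h5 := hok.cos_pos
    nlinarith [mul_le_mul_of_nonneg_left h1 h5.le]
  have hsum := Finset.sum_le_sum (fun k hk => hstep k (Finset.mem_range.1 hk))
  have hsum2 := Finset.sum_le_sum (fun k hk => hmid k (Finset.mem_range.1 hk))
  rw [Finset.sum_sub_distrib, Finset.sum_sub_distrib, Finset.sum_range_succ (fun k => B (k + 1)),
    Finset.sum_range_succ' A] at hsum
  rw [Finset.sum_neg_distrib, Finset.sum_add_distrib, ← Finset.mul_sum] at hsum2
  rw [sum_Ioo m (fun k => Real.cos (z k).φ * ‖p k - (z k).pos‖ ^ 2)]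
  have hA0 : A 0 = dt (ee (z 0).th) (p 0 - (z 0).pos) := rfl
  have hBn : B (m + 1) = dt (ee (z (m + 1)).bk) (p (m + 1) - (z (m + 1)).pos) := rfl
  rw [← hA0, ← hBn]
  linarith

end Pool.Agent.Helper42.DB.PkMINI
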