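import Pool.Agent.Helper42.DB.Goals3

set_option autoImplicit false

/-!
# MP_48f005_an, packet BIG
-/

namespace Pool.Agent.Helper42.DB.PkBIG

open Set Filter Topology

lemma behind (hC : G_CRV) (c : Crv) (u v : ℝ) (h : |v - u| < 1 / 2) :
    dt (ee v) (c.G u - c.G v) ≤ 0 := by
  rw [(hC c v v u).2, neg_nonpos]
  have hpi := Real.pi_gt_three
  have hab := abs_lt.1 h
  rcases le_total v u with hvu | huv
  · apply intervalIntegral.integral_nonneg hvu
    intro t ht
    apply mul_nonneg (c.nonneg t)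
    apply Real.sin_nonneg_of_nonneg_of_le_pi <;> linarith [ht.1, ht.2]
  · rw [intervalIntegral.integral_symm, neg_nonneg]
    have h0 : 0 ≤ ∫ t in u..v, -(c.R t * Real.sin (t - v)) := by
      apply intervalIntegral.integral_nonneg huv
      intro t ht
      rw [← mul_neg]
      apply mul_nonneg (c.nonneg t)
      rw [neg_nonneg]
      apply Real.sin_nonpos_of_nonpos_of_neg_pi_le <;> linarith [ht.1, ht.2]
    rw [intervalIntegral.integral_neg] at h0
    linarith

/-- the first exit point of a segment from the complement of an open set -/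
lemma exit_pt (Y : Set ℂ) (hY : IsOpen Y) (z w : ℂ) (hz : z ∉ Y) (hw : w ∈ Y) :
    ∃ p ∈ frontier Y, p ∈ connectedComponentIn Yᶜ z := by
  set f : ℝ → ℂ := fun t => z + (t : ℂ) * (w - z) with hf
  have hfc : Continuous f := by rw [hf]; fun_prop
  set T : Set ℝ := {t | 0 ≤ t ∧ t ≤ 1 ∧ f t ∈ Y} with hT
  have h1 : (1 : ℝ) ∈ T := by
    refine ⟨zero_le_one, le_rfl, ?_⟩
    have : f 1 = w := by simp [hf]
    rw [this]; exact hw
  have hbdd : BddBelow T := ⟨0, fun t ht => ht.1⟩
  have hne : T.Nonempty := ⟨1, h1⟩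
  set s := sInf T with hs
  have hs0 : 0 ≤ s := le_csInf hne fun t ht => ht.1
  have hs1 : s ≤ 1 := csInf_le hbdd h1
  have hf0 : f 0 = z := by simp [hf]
  have hcl : f s ∈ closure Y := by
    have h2 : s ∈ closure T := csInf_mem_closure hne hbdd
    have h3 : MapsTo f T Y := fun t ht => ht.2.2
    exact h3.closure hfc h2
  have hlt : ∀ t, 0 ≤ t → t < s → f t ∉ Y := by
    intro t ht0 hts hfY
    have h4 : t ∈ T := ⟨ht0, by linarith, hfY⟩
    linarith [csInf_le hbdd h4]
  have hsY : f s ∉ Y := by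
    intro hfY
    have hspos : 0 < s := by
      rcases hs0.eq_or_lt with h | h
      · exfalso; rw [← h, hf0] at hfY; exact hz hfY
      · exact h
    have hop : IsOpen (f ⁻¹' Y) := hY.preimage hfc
    obtain ⟨ε, hε, hball⟩ := Metric.isOpen_iff.1 hop s hfY
    have h5 : max 0 (s - ε / 2) ∈ f ⁻¹' Y := by
      apply hball
      rw [Metric.mem_ball, Real.dist_eq, abs_lt]
      have h6 := le_max_right 0 (s - ε / 2)
      have h7 : max 0 (s - ε / 2) ≤ s := max_le hs0 (by linarith)
      constructor <;> linarith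
    exact hlt _ (le_max_left _ _) (max_lt hspos (by linarith)) h5
  refine ⟨f s, ?_, ?_⟩
  · rw [hY.frontier_eq]; exact ⟨hcl, hsY⟩
  · have hpre : IsPreconnected (f '' Icc 0 s) := isPreconnected_Icc.image f hfc.continuousOn
    have hsub : f '' Icc 0 s ⊆ Yᶜ := by
      rintro _ ⟨t, ht, rfl⟩
      rcases ht.2.eq_or_lt with h | h
      · rw [h]; exact hsY
      · exact hlt t ht.1 h
    have hmem : z ∈ f '' Icc 0 s := ⟨0, ⟨le_rfl, hs0⟩, hf0⟩
    exact hpre.subset_connectedComponentIn hmem hsub ⟨s, ⟨hs0, le_rfl⟩, rfl⟩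

/-- BIG -/
theorem thm (C : CTab) : G_CRV → G_LSIDE C → G_BIG C := by
  intro hC hL
  have := C.fin
  have hR : ∀ i : C.ι, C.Rg i ((C.A i + C.B i) / 2) := by
    intro i
    right
    have := C.hAB i
    constructor <;> linarith
  choose δ hδ hδ' using fun i : C.ι => hL i ((C.A i + C.B i) / 2) (hR i) (1 / 2) (by norm_num)
  obtain ⟨ρ, hρ, hρδ⟩ : ∃ ρ : ℝ, 0 < ρ ∧ ∀ i, ρ ≤ δ i / 4 := by
    rcases isEmpty_or_nonempty C.ι with he | hne
    · exact ⟨1, one_pos, fun i => (he.false i).elim⟩
    · obtain ⟨i0, hi0⟩ := Finite.exists_min (fun i => δ i / 4)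
      exact ⟨δ i0 / 4, by have := hδ i0; positivity, hi0⟩
  refine ⟨ρ, hρ, ?_⟩
  intro z hz
  obtain ⟨w, hw⟩ := C.ne
  obtain ⟨p, hpf, hpz⟩ := exit_pt C.Y C.isOpen z w hz hw
  rw [C.bdry, mem_iUnion] at hpf
  obtain ⟨i, hpi⟩ := hpf
  set u : ℝ := (C.A i + C.B i) / 2 with hu
  have hAB := C.hAB i
  have huI : u ∈ Icc (C.A i) (C.B i) := by constructor <;> linarith
  -- points behind all the normals are outside of `Y`
  have hout : ∀ x ∈ Metric.ball (C.g i u) (δ i),
      (∀ v : ℝ, |v - u| < 1 / 2 → dt (ee v) (x - C.g i v) ≤ 0) → x ∉ C.Y := by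
    intro x hx hv
    obtain ⟨v, r, hvu, -, hxe, -, hr⟩ := hδ' i x hx
    apply hr
    have h := hv v hvu
    have h2 : x - C.g i v = r • ee v := by rw [hxe]; ring
    rw [h2, dt_smul_right, dt_self, norm_ee] at h
    linarith
  have hcos : ∀ v : ℝ, |v - u| < 1 / 2 → 1 / 2 < Real.cos (u - v) := by
    intro v hv
    have h1 := Real.one_sub_sq_div_two_le_cos (x := u - v)
    have h2 : (u - v) ^ 2 < 1 / 4 := by
      have h3 := abs_lt.1 hv
      nlinarith
    linarith
  have hδi := hδ i
  -- the three connected pieces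
  have hΓ : (C.g i) '' Icc (C.A i) (C.B i) ⊆ C.Yᶜ := by
    intro x hx
    have h : x ∈ frontier C.Y := by rw [C.bdry]; exact mem_iUnion.2 ⟨i, hx⟩
    rw [C.isOpen.frontier_eq] at h
    exact h.2
  have hΓc : IsPreconnected ((C.g i) '' Icc (C.A i) (C.B i)) :=
    isPreconnected_Icc.image _ (C.crv i).continuous.continuousOn
  set s : ℝ → ℂ := fun t => C.g i u - t • ee u with hsdef
  have hsc : Continuous s := by rw [hsdef]; fun_prop
  have hseg : s '' Icc 0 (δ i / 2) ⊆ C.Yᶜ := by
    rintro _ ⟨t, ht, rfl⟩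
    apply hout
    · rw [Metric.mem_ball, dist_eq_norm]
      have h : s t - C.g i u = -(t • ee u) := by rw [hsdef]; ring
      rw [h, norm_neg, norm_smul, norm_ee, mul_one, Real.norm_eq_abs, abs_of_nonneg ht.1]
      linarith [ht.2]
    · intro v hv
      have h1 := behind hC (C.crv i) u v hv
      have h2 : s t - C.g i v = (C.g i u - C.g i v) - t • ee u := by rw [hsdef]; ring
      rw [h2, dt_sub_right, dt_smul_right, dt_ee_ee]
      have h3 := hcos v hv
      have h4 : 0 ≤ t * Real.cos (u - v) := mul_nonneg ht.1 (by linarith)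
      have h5 : dt (ee v) (C.g i u - C.g i v) ≤ 0 := h1
      linarith
  have hsegc : IsPreconnected (s '' Icc 0 (δ i / 2)) :=
    isPreconnected_Icc.image _ hsc.continuousOn
  set q : ℂ := C.g i u - (δ i / 2) • ee u with hq
  have hball : Metric.closedBall q (δ i / 4) ⊆ C.Yᶜ := by
    intro x hx
    rw [Metric.mem_closedBall, dist_eq_norm] at hx
    apply hout
    · rw [Metric.mem_ball, dist_eq_norm]
      have h : x - C.g i u = (x - q) - (δ i / 2) • ee u := by rw [hq]; ring
      rw [h]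
      have h2 := norm_sub_le (x - q) ((δ i / 2) • ee u)
      rw [norm_smul, norm_ee, mul_one, Real.norm_eq_abs, abs_of_pos (by linarith)] at h2
      linarith
    · intro v hv
      have h1 : dt (ee v) (C.g i u - C.g i v) ≤ 0 := behind hC (C.crv i) u v hv
      have h2 : x - C.g i v = (C.g i u - C.g i v) - (δ i / 2) • ee u + (x - q) := by
        rw [hq]; ring
      rw [h2, dt_add_right, dt_sub_right, dt_smul_right, dt_ee_ee]
      have h3 := hcos v hv
      have h4 := dt_le (ee v) (x - q)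
      rw [norm_ee, one_mul] at h4
      nlinarith
  have hballc : IsPreconnected (Metric.closedBall q (δ i / 4)) :=
    (convex_closedBall q _).isPreconnected
  -- chain
  have hU : C.g i u ∈ (C.g i) '' Icc (C.A i) (C.B i) := ⟨u, huI, rfl⟩
  have hs0 : s 0 = C.g i u := by simp [hsdef]
  have hs1 : s (δ i / 2) = q := rfl
  have e1 : connectedComponentIn C.Yᶜ z = connectedComponentIn C.Yᶜ p :=
    connectedComponentIn_eq hpz
  have m2 : C.g i u ∈ connectedComponentIn C.Yᶜ p :=
    hΓc.subset_connectedComponentIn hpi hΓ hU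
  have e2 := connectedComponentIn_eq m2
  have m3 : q ∈ connectedComponentIn C.Yᶜ (C.g i u) :=
    hsegc.subset_connectedComponentIn ⟨0, ⟨le_rfl, by linarith⟩, hs0⟩ hseg
      ⟨δ i / 2, ⟨by linarith, le_rfl⟩, hs1⟩
  have e3 := connectedComponentIn_eq m3
  refine ⟨q, ?_⟩
  rw [e1, e2, e3]
  refine (Metric.closedBall_subset_closedBall (hρδ i)).trans ?_
  exact hballc.subset_connectedComponentIn (Metric.mem_closedBall_self (by linarith)) hball

end Pool.Agent.Helper42.DB.PkBIG
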