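import Pool.Agent.Helper42.DB.Goals2

set_option autoImplicit false

/-!
# MP_48f005_an, packet STEPY
-/

namespace Pool.Agent.Helper42.DB.PkSTEPY

open Set Filter Topology

lemma ee_add_kk (θ kk : ℝ) (h : Real.cos kk = -1) : ee (θ + kk) = -ee θ := by
  have hs : Real.sin kk = 0 := by
    have h1 := Real.sin_sq_add_cos_sq kk
    rw [h] at h1
    nlinarith
  apply Complex.ext
  · simp [Real.cos_add, h, hs]
  · simp [Real.sin_add, h, hs]

/-- STEPY -/
theorem thm (S : Sys) : G_LAND S → G_SIDE → G_QOPEN → G_CORE S → G_STEPY S := by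
  intro hLAND hSIDE hQ hCORE c p q ν θ y0 y1 η C kk hpq hM hθ hνθ hY hc0 hp hq hkk hC1 hC2 hL0 hL1
    hij hb0 hb1
  obtain ⟨hok0, he0, T0, hT0, hpos0, hseg0⟩ := hL0
  obtain ⟨hok1, he1, T1, hT1, hpos1, hseg1⟩ := hL1
  have hφ0 : |θ p + kk - y0.u| < Real.pi / 2 := by
    rw [← hb0]
    have h : y0.bk - y0.u = -y0.φ := by simp only [St.bk]; ring
    rw [h, abs_neg]; exact hok0.2
  have hφ1 : |θ q + kk - y1.u| < Real.pi / 2 := by
    rw [← hb1]
    have h : y1.bk - y1.u = -y1.φ := by simp only [St.bk]; ring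
    rw [h, abs_neg]; exact hok1.2
  have hpos0' : S.g y0.i y0.u = c.G (ν p) + T0 • ee (θ p) := hpos0
  have hpos1' : S.g y0.i y1.u = c.G (ν q) + T1 • ee (θ q) := by rw [hij]; exact hpos1
  obtain ⟨μ, T, hμp, hμq, hTp, hTq, hμc, hTc, hμa, hall⟩ :=
    hLAND c y0.i p q ν θ η C kk y0.u y1.u T0 T1 hpq hM (Or.inl hθ) hνθ hp hq hkk hC1 hC2 hT0 hT1
      hpos0' hpos1' hφ0 hφ1
  have hbc : ContinuousOn (fun l => c.G (ν l)) (Icc p q) := c.continuous.comp_continuousOn hM.1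
  have hside := hSIDE c p q ν θ hpq hM (Or.inl hθ) hνθ
  have hopen := hQ p q (fun l => c.G (ν l)) θ T hpq hbc hM.2.1 hTc hside
  have hμI : ∀ l ∈ Icc p q, μ l ∈ Ioo (S.a y0.i) (S.b y0.i) := by
    intro l hl
    have h1 : μ l ≤ μ p := hμa.antitoneOn ⟨le_rfl, hpq.le⟩ hl hl.1
    have h2 : μ q ≤ μ l := hμa.antitoneOn hl ⟨hpq.le, le_rfl⟩ hl.2
    rw [hμp] at h1
    rw [hμq] at h2
    have h3 := hok0.1
    have h4 := hok1.1
    rw [← hij] at h4
    exact ⟨lt_of_lt_of_le h4.1 h2, lt_of_le_of_lt h1 h3.2⟩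
  have hcore := hCORE y0.i p q (fun l => c.G (ν l)) θ T μ kk hpq hbc hM.2.1 hTc hμc hopen hkk
    (fun l hl => ⟨(hall l hl).1, hμI l hl, (hall l hl).2.1, (hall l hl).2.2⟩)
    (by rw [hTp]; exact hseg0) (by rw [hTq]; exact hseg1) (Or.inl hY) hc0
  refine ⟨fun l => ⟨y0.i, μ l, μ l - (θ l + kk)⟩, ?_, ?_, ?_, ?_, ?_, ?_⟩
  · apply St.ext
    · rfl
    · exact hμp
    · show μ p - (θ p + kk) = y0.φ
      rw [hμp, ← hb0]; simp only [St.bk]; ring
  · apply St.ext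
    · exact hij
    · exact hμq
    · show μ q - (θ q + kk) = y1.φ
      rw [hμq, ← hb1]; simp only [St.bk]; ring
  · refine ⟨fun l _ => rfl, fun l hl => ⟨hμI l hl, ?_⟩, hμc, ?_⟩
    · show |μ l - (θ l + kk)| < Real.pi / 2
      rw [abs_sub_comm]; exact (hall l hl).2.2
    · exact hμc.sub (hM.2.1.add continuousOn_const)
  · intro l hl
    refine ⟨⟨hμI l hl, ?_⟩, ?_, T l, (hall l hl).1, (hall l hl).2.1, hcore l hl⟩
    · show |μ l - (θ l + kk)| < Real.pi / 2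
      rw [abs_sub_comm]; exact (hall l hl).2.2
    · have h : St.bk (⟨y0.i, μ l, μ l - (θ l + kk)⟩ : St S) = θ l + kk := by
        simp only [St.bk]; ring
      rw [h, ee_add_kk _ _ hkk, neg_neg]
  · exact hμa
  · intro l hl l' hl' hlt
    have h1 := hμa hl hl' hlt
    have h2 := hθ hl hl' hlt
    show μ l' + (μ l' - (θ l' + kk)) < μ l + (μ l - (θ l + kk))
    linarith

end Pool.Agent.Helper42.DB.PkSTEPY
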